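import Pool.Agent.J4H31.DN.Hur

/-!
# DN G: the inequality for entire functions which are limits of polynomials
-/

set_option autoImplicit false

namespace Pool.Agent.J4H31.DN

open Polynomial Complex Filter Topology Metric Set Pool.Agent.J4H34.DN

theorem iter_lim {p : ℕ → ℂ[X]} {f : ℂ → ℂ} (hf : Differentiable ℂ f)
    (hp : TendstoLocallyUniformly (fun N z => (p N).eval z) f atTop) (n : ℕ) :
    Differentiable ℂ (iteratedDeriv n f) ∧
      TendstoLocallyUniformly (fun N z => (derivative^[n] (p N)).eval z) (iteratedDeriv n f) atTop := by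
  induction n with
  | zero => simpa using ⟨hf, hp⟩
  | succ n ih =>
    obtain ⟨h1, h2⟩ := ih
    refine ⟨?_, ?_⟩
    · rw [iteratedDeriv_succ]
      exact (h1.contDiff (n := 2)).differentiable_deriv_two
    · rw [iteratedDeriv_succ, ← tendstoLocallyUniformlyOn_univ]
      have h3 : TendstoLocallyUniformlyOn (fun N z => (derivative^[n] (p N)).eval z) (iteratedDeriv n f) atTop univ :=
        tendstoLocallyUniformlyOn_univ.2 h2
      have h4 := h3.deriv (Eventually.of_forall fun N => (derivative^[n] (p N)).differentiable.differentiableOn)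
        isOpen_univ
      refine h4.congr ?_
      intro N z _
      show deriv (fun z => (derivative^[n] (p N)).eval z) z = _
      rw [Polynomial.deriv, Function.iterate_succ_apply']

theorem ms_ge (s : Multiset ℂ) (S : Finset ℂ) (g : ℂ → ℝ) (hg : ∀ a, 0 ≤ g a) :
    ∑ w ∈ S, (s.count w : ℝ) * g w ≤ (s.map g).sum := by
  classical
  have h1 : (s.map g).sum = ∑ w ∈ s.toFinset, (s.count w : ℝ) * g w := by
    rw [Finset.sum_multiset_map_count]
    exact Finset.sum_congr rfl fun w _ => nsmul_eq_mul _ _
  rw [h1]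
  calc ∑ w ∈ S, (s.count w : ℝ) * g w ≤ ∑ w ∈ S ∪ s.toFinset, (s.count w : ℝ) * g w :=
        Finset.sum_le_sum_of_subset_of_nonneg Finset.subset_union_left fun w _ _ => mul_nonneg (Nat.cast_nonneg _) (hg w)
    _ = ∑ w ∈ s.toFinset, (s.count w : ℝ) * g w := by
        symm
        refine Finset.sum_subset Finset.subset_union_right ?_
        intro w _ hw
        rw [Multiset.mem_toFinset] at hw
        rw [Multiset.count_eq_zero_of_notMem hw]
        simp

theorem count_disj (s : Multiset ℂ) (S : Finset ℂ) (r : ℝ) (Q : ℂ → Prop) [DecidablePred Q]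
    (hS : ∀ w ∈ S, ∀ w' ∈ S, w ≠ w' → 2 * r ≤ dist w w') (hQ : ∀ w ∈ S, ∀ a, dist a w < r → Q a) :
    ∑ w ∈ S, (s.filter (fun a => dist a w < r)).card ≤ (s.filter Q).card := by
  classical
  induction s using Multiset.induction with
  | empty => simp
  | cons a s ih =>
    have h1 : ∀ w, ((a ::ₘ s).filter (fun a => dist a w < r)).card =
        (s.filter (fun a => dist a w < r)).card + if dist a w < r then 1 else 0 := by
      intro w
      rw [← Multiset.countP_eq_card_filter, ← Multiset.countP_eq_card_filter, Multiset.countP_cons]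
    have h2 : ((a ::ₘ s).filter Q).card = (s.filter Q).card + if Q a then 1 else 0 := by
      rw [← Multiset.countP_eq_card_filter, ← Multiset.countP_eq_card_filter, Multiset.countP_cons]
    rw [Finset.sum_congr rfl fun w _ => h1 w, Finset.sum_add_distrib, h2]
    refine add_le_add ih ?_
    rw [← Finset.card_filter]
    have h3 : (S.filter fun w => dist a w < r).card ≤ 1 := by
      rw [Finset.card_le_one]
      intro w hw w' hw'
      rw [Finset.mem_filter] at hw hw'
      by_contra hne
      have h4 := hS w hw.1 w' hw'.1 hne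
      have h5 : dist w w' ≤ dist w a + dist a w' := dist_triangle _ _ _
      rw [dist_comm w a] at h5
      linarith [hw.2, hw'.2]
    by_cases hq : Q a
    · rw [if_pos hq]
      exact h3
    · rw [if_neg hq, Nat.le_zero, Finset.card_eq_zero, Finset.filter_eq_empty_iff]
      intro w hw hd
      exact hq (hQ w hw a hd)

theorem exists_r (S : Finset ℂ) (c : ℂ → ℝ) (hc : ∀ w ∈ S, 0 < c w) :
    ∃ r : ℝ, 0 < r ∧ (∀ w ∈ S, r ≤ c w) ∧ ∀ w ∈ S, ∀ w' ∈ S, w ≠ w' → 2 * r ≤ dist w w' := by
  have h0 : ∀ᶠ r : ℝ in 𝓝[>] 0, 0 < r := self_mem_nhdsWithin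
  have h1 : ∀ᶠ r : ℝ in 𝓝[>] 0, ∀ w ∈ S, r ≤ c w := by
    rw [Finset.eventually_all]
    intro w hw
    exact (eventually_le_nhds (hc w hw)).filter_mono nhdsWithin_le_nhds
  have h2 : ∀ᶠ r : ℝ in 𝓝[>] 0, ∀ w ∈ S, ∀ w' ∈ S, w ≠ w' → 2 * r ≤ dist w w' := by
    rw [Finset.eventually_all]
    intro w _
    rw [Finset.eventually_all]
    intro w' _
    by_cases h : w = w'
    · exact Eventually.of_forall fun r hne => absurd h hne
    · have h3 : 0 < dist w w' / 2 := by
        have := dist_pos.2 h
        linarith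
      filter_upwards [(eventually_le_nhds h3).filter_mono nhdsWithin_le_nhds] with r hr _
      linarith
  obtain ⟨r, h3, h4, h5⟩ := (h0.and (h1.and h2)).exists
  exact ⟨r, h3, h4, h5⟩

theorem t_G (hF : S_F) : S_G := by
  classical
  intro f p y η R Λ x₀ B n hf hA hstrip hy hη hyη hR hΛ hS₀ hn hB S hS
  obtain ⟨hp0, hplim, hple, hpeq⟩ := hA
  obtain ⟨S₀, hS₀, hΛ₀⟩ := hS₀
  have hR0 : 0 < R := by linarith
  obtain ⟨hfn, hqlim⟩ := iter_lim hf hplim n
  -- the roots of `p N` are zeros of `f`
  have hroot : ∀ N, ∀ a ∈ (p N).roots, f a = 0 := by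
    intro N a ha
    have h1 : 0 < (p N).roots.count a := Multiset.count_pos.2 ha
    have h2 := hple N a
    exact apply_eq_zero_of_analyticOrderNatAt_ne_zero (𝕜 := ℂ) (by omega)
  -- the lower bound
  have hlow : ∀ᶠ N in atTop, Λ + 1 / R ≤ ((p N).roots.map (fun w => R / ((R + 4) ^ 2 + (x₀ - w.re) ^ 2))).sum := by
    have h1 : ∀ᶠ N in atTop, ∀ w ∈ S₀, (p N).roots.count w = analyticOrderNatAt f w := by
      rw [Finset.eventually_all]
      intro w _
      exact hpeq w
    filter_upwards [h1] with N hN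
    refine hΛ₀.trans ((le_of_eq ?_).trans (ms_ge (p N).roots S₀ (fun w => R / ((R + 4) ^ 2 + (x₀ - w.re) ^ 2)) ?_))
    · exact Finset.sum_congr rfl fun w hw => by rw [hN w hw]
    · intro a
      positivity
  -- the upper bound
  have hup : ∀ N, ((p N).roots.map (fun w => max (w.im - y) 0 * R / (R ^ 2 + (x₀ - w.re) ^ 2))).sum ≤ B := by
    intro N
    rw [Finset.sum_multiset_map_count]
    refine le_trans ?_ (hB ((p N).roots.toFinset.filter fun w => y < w.im) ?_)
    · rw [Finset.sum_filter]
      refine Finset.sum_le_sum ?_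
      intro w _
      rw [nsmul_eq_mul]
      split_ifs with h
      · rw [max_eq_left (by linarith)]
        refine mul_le_mul_of_nonneg_right (by exact_mod_cast hple N w) ?_
        have : 0 ≤ w.im - y := by linarith
        positivity
      · rw [max_eq_right (by linarith [not_lt.1 h])]
        simp
    · intro w hw
      rw [Finset.mem_filter, Multiset.mem_toFinset] at hw
      exact ⟨hroot N w hw.1, hw.2⟩
  -- the radius
  obtain ⟨r, hr, hr1, hr2⟩ := exists_r S (fun w => min (R - |w.re - x₀|) (w.im - (y + η))) (by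
    intro w hw
    obtain ⟨-, h2, h3⟩ := hS w hw
    exact lt_min (by linarith) (by linarith))
  have hH : ∀ᶠ N in atTop, ∀ w ∈ S, analyticOrderNatAt (iteratedDeriv n f) w ≤
      ((derivative^[n] (p N)).roots.filter (fun a => dist a w < r)).card := by
    rw [Finset.eventually_all]
    intro w _
    by_cases ht : analyticOrderAt (iteratedDeriv n f) w = ⊤
    · refine Eventually.of_forall fun N => ?_
      have : analyticOrderNatAt (iteratedDeriv n f) w = 0 := by
        rw [analyticOrderNatAt, ht]
        rfl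
      rw [this]
      exact Nat.zero_le _
    · exact hurwitz_count hfn hqlim w ht hr
  obtain ⟨N, hN1, hN2⟩ := (hlow.and hH).exists
  have hFN := hF (p N) y η R Λ x₀ n (hp0 N) (fun w hw => hstrip w (hroot N w hw)) hy hη hyη hR hΛ hN1 hn
  have h1 : ∑ w ∈ S, analyticOrderNatAt (iteratedDeriv n f) w ≤
      ((derivative^[n] (p N)).roots.filter (fun w => |w.re - x₀| ≤ R ∧ y + η ≤ w.im)).card := by
    refine (Finset.sum_le_sum hN2).trans (count_disj _ S r _ hr2 ?_)
    intro w hw a ha
    have h2 := hr1 w hw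
    have h3 : r ≤ R - |w.re - x₀| := h2.trans (min_le_left _ _)
    have h4 : r ≤ w.im - (y + η) := h2.trans (min_le_right _ _)
    have h5 : |a.re - w.re| < r := by
      refine lt_of_le_of_lt ?_ ha
      rw [dist_eq_norm, ← Complex.sub_re]
      exact Complex.abs_re_le_norm _
    have h6 : |a.im - w.im| < r := by
      refine lt_of_le_of_lt ?_ ha
      rw [dist_eq_norm, ← Complex.sub_im]
      exact Complex.abs_im_le_norm _
    constructor
    · have : |a.re - x₀| ≤ |a.re - w.re| + |w.re - x₀| := abs_sub_le _ _ _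
      linarith
    · have := (abs_lt.1 h6).1
      linarith
  have h2 : (∑ w ∈ S, (analyticOrderNatAt (iteratedDeriv n f) w : ℝ)) ≤
      (((derivative^[n] (p N)).roots.filter (fun w => |w.re - x₀| ≤ R ∧ y + η ≤ w.im)).card : ℝ) := by
    exact_mod_cast h1
  calc (∑ w ∈ S, (analyticOrderNatAt (iteratedDeriv n f) w : ℝ)) * η ≤
      (((derivative^[n] (p N)).roots.filter (fun w => |w.re - x₀| ≤ R ∧ y + η ≤ w.im)).card : ℝ) * η :=
        mul_le_mul_of_nonneg_right h2 hη.le
    _ ≤ 150 * R * ((p N).roots.map (fun w => max (w.im - y) 0 * R / (R ^ 2 + (x₀ - w.re) ^ 2))).sum := hFN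
    _ ≤ 150 * R * B := mul_le_mul_of_nonneg_left (hup N) (by positivity)

end Pool.Agent.J4H31.DN
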