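import Pool.Agent.J4H34.DN.Stm

/-!
# DN G, part 1: the number of roots near a zero of the limit (Hurwitz)
-/

set_option autoImplicit false

namespace Pool.Agent.J4H31.DN

open Polynomial Complex Filter Topology Metric Set

/-- the integral of the logarithmic derivative of a polynomial counts the roots -/
theorem count_int (w : ℂ) {r : ℝ} (hr : 0 < r) (s : Multiset ℂ) (hs : ∀ a ∈ s, a ∉ sphere w r) :
    ContinuousOn (fun z => (s.map fun a => 1 / (z - a)).sum) (sphere w r) ∧
    (∮ z in C(w, r), (s.map fun a => 1 / (z - a)).sum) =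
      2 * Real.pi * I * ((s.filter (fun a => dist a w < r)).card : ℂ) := by
  induction s using Multiset.induction with
  | empty => exact ⟨by simpa using continuousOn_const, by simp [circleIntegral]⟩
  | cons a s ih =>
    obtain ⟨ih1, ih2⟩ := ih (fun b hb => hs b (Multiset.mem_cons_of_mem hb))
    have ha : a ∉ sphere w r := hs a (Multiset.mem_cons_self a s)
    have hne : ∀ z ∈ sphere w r, z - a ≠ 0 := by
      intro z hz h
      rw [sub_eq_zero] at h
      exact ha (h ▸ hz)
    have hca : ContinuousOn (fun z : ℂ => 1 / (z - a)) (sphere w r) :=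
      continuousOn_const.div (by fun_prop) hne
    simp only [Multiset.map_cons, Multiset.sum_cons]
    refine ⟨hca.add ih1, ?_⟩
    rw [circleIntegral.integral_add (hca.circleIntegrable hr.le) (ih1.circleIntegrable hr.le), ih2]
    by_cases hd : dist a w < r
    · rw [Multiset.filter_cons_of_pos (p := fun a => dist a w < r) s hd, Multiset.card_cons]
      have h1 : (∮ z in C(w, r), 1 / (z - a)) = 2 * Real.pi * I := by
        simp only [one_div]
        exact circleIntegral.integral_sub_inv_of_mem_ball (mem_ball.2 hd)
      rw [h1]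
      push_cast
      ring
    · rw [Multiset.filter_cons_of_neg (p := fun a => dist a w < r) s hd]
      have hd' : r < dist a w := lt_of_le_of_ne (not_lt.1 hd) fun h => ha (mem_sphere.2 h.symm)
      have h1 : (∮ z in C(w, r), 1 / (z - a)) = 0 := by
        apply Complex.circleIntegral_eq_zero_of_differentiable_on_off_countable hr.le countable_empty
        · refine continuousOn_const.div (by fun_prop) ?_
          intro z hz h
          rw [sub_eq_zero] at h
          rw [mem_closedBall, h] at hz
          linarith
        · intro z hz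
          have : z - a ≠ 0 := by
            intro h
            rw [sub_eq_zero] at h
            have := mem_ball.1 hz.1
            rw [h] at this
            linarith
          exact (differentiableAt_const _).div (by fun_prop) this
      rw [h1, zero_add]

/-- Hurwitz: near a zero of order `m` of the limit the polynomials have finally `m` roots -/
theorem hurwitz_count {q : ℕ → ℂ[X]} {g : ℂ → ℂ} (hg : Differentiable ℂ g)
    (hq : TendstoLocallyUniformly (fun N z => (q N).eval z) g atTop) (w : ℂ)
    (hw : analyticOrderAt g w ≠ ⊤) {r : ℝ} (hr : 0 < r) :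
    ∀ᶠ N in atTop, analyticOrderNatAt g w ≤ ((q N).roots.filter (fun a => dist a w < r)).card := by
  set m := analyticOrderNatAt g w with hm
  have hgw : AnalyticAt ℂ g w := hg.analyticAt w
  obtain ⟨h, hh, hh0, hgh⟩ : ∃ h : ℂ → ℂ, AnalyticAt ℂ h w ∧ h w ≠ 0 ∧ ∀ᶠ z in 𝓝 w, g z = (z - w) ^ m • h z := by
    apply (hgw.analyticOrderAt_eq_natCast).1
    rw [hm, Nat.cast_analyticOrderNatAt hw]
  have hev : ∀ᶠ z in 𝓝 w, g z = (z - w) ^ m * h z ∧ AnalyticAt ℂ h z ∧ h z ≠ 0 := by
    filter_upwards [hgh, hh.eventually_analyticAt, hh.continuousAt.eventually_ne hh0] with z h1 h2 h3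
    exact ⟨by simpa using h1, h2, h3⟩
  obtain ⟨ρ₀, hρ₀, hb⟩ := Metric.eventually_nhds_iff_ball.1 hev
  set ρ := min (ρ₀ / 2) (r / 2) with hρ
  have hρ1 : 0 < ρ := lt_min (by linarith) (by linarith)
  have hρ2 : ρ < ρ₀ := lt_of_le_of_lt (min_le_left _ _) (by linarith)
  have hρ3 : ρ < r := lt_of_le_of_lt (min_le_right _ _) (by linarith)
  have hsub : closedBall w ρ ⊆ ball w ρ₀ := closedBall_subset_ball hρ2
  have hgs : ∀ z ∈ sphere w ρ, g z ≠ 0 := by
    intro z hz
    obtain ⟨h1, -, h3⟩ := hb z (hsub (sphere_subset_closedBall hz))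
    rw [h1]
    refine mul_ne_zero (pow_ne_zero _ ?_) h3
    intro h0
    rw [sub_eq_zero] at h0
    rw [mem_sphere, h0, dist_self] at hz
    linarith
  -- the integral of `g'/g`
  have hI : (∮ z in C(w, ρ), deriv g z / g z) = 2 * Real.pi * I * (m : ℂ) := by
    have h1 : EqOn (fun z => deriv g z / g z) (fun z => (m : ℂ) * (z - w)⁻¹ + deriv h z / h z) (sphere w ρ) := by
      intro z hz
      obtain ⟨h1, h2, h3⟩ := hb z (hsub (sphere_subset_closedBall hz))
      have hzw : z - w ≠ 0 := by
        intro h0
        rw [sub_eq_zero] at h0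
        rw [mem_sphere, h0, dist_self] at hz
        linarith
      have h4 : g =ᶠ[𝓝 z] fun z => (z - w) ^ m * h z := by
        filter_upwards [isOpen_ball.mem_nhds (hsub (sphere_subset_closedBall hz))] with u hu
        exact (hb u hu).1
      have h5 : deriv g z = (m : ℂ) * (z - w) ^ (m - 1) * h z + (z - w) ^ m * deriv h z := by
        rw [h4.deriv_eq]
        have h6 : HasDerivAt (fun z : ℂ => (z - w) ^ m) ((m : ℂ) * (z - w) ^ (m - 1) * 1) z :=
          ((hasDerivAt_id z).sub_const w).pow m
        have h7 := h6.mul h2.differentiableAt.hasDerivAt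
        rw [show (fun z => (z - w) ^ m * h z) = (fun z : ℂ => (z - w) ^ m) * h from rfl, h7.deriv]
        ring
      show deriv g z / g z = (m : ℂ) * (z - w)⁻¹ + deriv h z / h z
      rw [h5, h1]
      rcases Nat.eq_zero_or_pos m with h0 | h0
      · rw [h0]
        simp
      · have h8 : (z - w) ^ m = (z - w) ^ (m - 1) * (z - w) := by
          rw [← pow_succ, Nat.sub_add_cancel h0]
        have h9 : (z - w) ^ (m - 1) ≠ 0 := pow_ne_zero _ hzw
        rw [h8]
        field_simp
    rw [circleIntegral.integral_congr hρ1.le h1]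
    have hc1 : ContinuousOn (fun z : ℂ => (m : ℂ) * (z - w)⁻¹) (sphere w ρ) := by
      refine continuousOn_const.mul (ContinuousOn.inv₀ (by fun_prop) ?_)
      intro z hz h0
      rw [sub_eq_zero] at h0
      rw [mem_sphere, h0, dist_self] at hz
      linarith
    have hd2 : ∀ z ∈ closedBall w ρ, DifferentiableAt ℂ (fun z => deriv h z / h z) z := by
      intro z hz
      obtain ⟨-, h2, h3⟩ := hb z (hsub hz)
      exact h2.deriv.differentiableAt.div h2.differentiableAt h3
    have hc2 : ContinuousOn (fun z => deriv h z / h z) (closedBall w ρ) := fun z hz =>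
      (hd2 z hz).continuousAt.continuousWithinAt
    rw [circleIntegral.integral_add (hc1.circleIntegrable hρ1.le)
      ((hc2.mono sphere_subset_closedBall).circleIntegrable hρ1.le),
      Complex.circleIntegral_eq_zero_of_differentiable_on_off_countable hρ1.le countable_empty hc2
        (fun z hz => hd2 z (ball_subset_closedBall hz.1)), add_zero,
      circleIntegral.integral_const_mul, circleIntegral.integral_sub_center_inv w hρ1.ne']
    ring
  -- uniform convergence of the quotients
  have hU : TendstoLocallyUniformlyOn (fun N z => (q N).eval z) g atTop univ := tendstoLocallyUniformlyOn_univ.2 hq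
  have hU' : TendstoLocallyUniformlyOn (fun N z => (q N).derivative.eval z) (deriv g) atTop univ := by
    have := hU.deriv (Eventually.of_forall fun N => (q N).differentiable.differentiableOn) isOpen_univ
    refine this.congr ?_
    intro N z _
    show deriv (fun z => (q N).eval z) z = _
    rw [Polynomial.deriv]
  have hK := (tendstoLocallyUniformlyOn_iff_tendstoUniformlyOn_of_compact (isCompact_sphere w ρ)).1
    ((hU'.mono (subset_univ (sphere w ρ))).div₀ (hU.mono (subset_univ _))
      (hg.contDiff.continuous_deriv le_top).continuousOn hg.continuous.continuousOn hgs)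
  have hne : ∀ᶠ N in atTop, ∀ z ∈ sphere w ρ, (q N).eval z ≠ 0 := by
    obtain ⟨δ, hδ, hδ'⟩ : ∃ δ : ℝ, 0 < δ ∧ ∀ z ∈ sphere w ρ, δ ≤ ‖g z‖ := by
      obtain ⟨z0, hz0, hmin⟩ := (isCompact_sphere w ρ).exists_isMinOn (NormedSpace.sphere_nonempty.2 hρ1.le)
        (hg.continuous.norm.continuousOn)
      exact ⟨‖g z0‖, norm_pos_iff.2 (hgs z0 hz0), fun z hz => hmin hz⟩
    have h1 := (tendstoLocallyUniformlyOn_iff_tendstoUniformlyOn_of_compact (isCompact_sphere w ρ)).1
      (hU.mono (subset_univ (sphere w ρ)))
    rw [Metric.tendstoUniformlyOn_iff] at h1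
    filter_upwards [h1 δ hδ] with N hN z hz h0
    have h2 := hN z hz
    rw [h0, dist_zero_right] at h2
    linarith [hδ' z hz]
  have hcont : ∀ᶠ N in atTop, ContinuousOn (((fun N z => (q N).derivative.eval z) / fun N z => (q N).eval z) N)
      (sphere w ρ) := by
    filter_upwards [hne] with N hN
    exact (q N).derivative.continuous.continuousOn.div (q N).continuous.continuousOn hN
  have hT := hK.tendsto_circleIntegral_of_continuousOn hρ1.le hcont
  have hT2 : Tendsto (fun N => (((q N).roots.filter (fun a => dist a w < ρ)).card : ℂ)) atTop (𝓝 (m : ℂ)) := by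
    have hpi : (2 * Real.pi * I : ℂ) ≠ 0 := by
      simp [Real.pi_ne_zero]
    have h1 : Tendsto (fun N => (2 * Real.pi * I : ℂ)⁻¹ *
        (∮ z in C(w, ρ), ((fun N z => (q N).derivative.eval z) / fun N z => (q N).eval z) N z)) atTop
        (𝓝 ((2 * Real.pi * I : ℂ)⁻¹ * (∮ z in C(w, ρ), (deriv g / g) z))) := hT.const_mul _
    have h2 : (∮ z in C(w, ρ), (deriv g / g) z) = 2 * Real.pi * I * (m : ℂ) := hI
    rw [h2, inv_mul_cancel_left₀ hpi] at h1
    refine h1.congr' ?_
    filter_upwards [hne] with N hN
    have h3 : (∮ z in C(w, ρ), ((fun N z => (q N).derivative.eval z) / fun N z => (q N).eval z) N z) =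
        ∮ z in C(w, ρ), ((q N).roots.map fun a => 1 / (z - a)).sum := by
      refine circleIntegral.integral_congr hρ1.le ?_
      intro z hz
      show (q N).derivative.eval z / (q N).eval z = _
      exact (IsAlgClosed.splits (q N)).eval_derivative_div_eval_of_ne_zero (hN z hz)
    rw [h3, (count_int w hρ1 (q N).roots ?_).2, inv_mul_cancel_left₀ hpi]
    intro a ha hs
    exact hN a hs ((Polynomial.mem_roots'.1 ha).2)
  have hT3 : Tendsto (fun N => (((q N).roots.filter (fun a => dist a w < ρ)).card : ℝ)) atTop (𝓝 (m : ℝ)) := by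
    have h6 := (Complex.continuous_re.tendsto _).comp hT2
    rw [Complex.natCast_re] at h6
    refine h6.congr fun N => ?_
    rw [Function.comp_apply, Complex.natCast_re]
  have h4 : ∀ᶠ N in atTop, (m : ℝ) - 1 < (((q N).roots.filter (fun a => dist a w < ρ)).card : ℝ) :=
    hT3.eventually (lt_mem_nhds (by linarith))
  filter_upwards [h4] with N hN
  have h5 : m ≤ ((q N).roots.filter (fun a => dist a w < ρ)).card := by
    have : (m : ℝ) < (((q N).roots.filter (fun a => dist a w < ρ)).card + 1 : ℕ) := by push_cast; linarith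
    have := Nat.cast_lt.1 this
    omega
  refine h5.trans (Multiset.card_le_card ?_)
  exact Multiset.monotone_filter_right _ fun a ha => lt_trans ha hρ3

end Pool.Agent.J4H31.DN
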